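import Pool.Agent.Helper15.UH.Goals

/-!
# Packet BP for helper15's hand-in on `MP_ba83fc_ag`
-/

namespace UnrCoh.BP

theorem integral_test {L K : Type} [Field L] [Field K] [Algebra L K] (V : ValuationSubring L)
    (z : K)
    (h : ∀ W' : ValuationSubring K, (∀ a ∈ V, algebraMap L K a ∈ W') → z ∈ W') :
    IsIntegral V z := by
  by_contra hz
  have hz' : z ∉ (integralClosure V K).toSubring := hz
  obtain ⟨W', hW', hzW'⟩ := Subring.exists_le_valuationSubring_of_isIntegrallyClosedIn hz'
  apply hzW'
  apply h
  intro a ha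
  apply hW'
  exact (integralClosure V K).algebraMap_mem ⟨a, ha⟩

theorem main : S_BP := by
  intro L K _ _ _ hKL W x hx
  by_cases hx0 : x = 0
  · subst hx0
    exact ⟨1, isIntegral_one, map_one _, by simpa using isIntegral_zero⟩
  obtain ⟨p, hp0, hpx⟩ := hKL.isAlgebraic x
  -- the index
  set w : L → W.ValueGroup := fun a => W.valuation (algebraMap L K a) with hw
  have hsupp : p.support.Nonempty := Polynomial.support_nonempty.mpr hp0
  obtain ⟨m, hm, hmax⟩ := Finset.exists_max_image p.support (fun i => w (p.coeff i)) hsupp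
  set S := p.support.filter (fun i => w (p.coeff i) = w (p.coeff m)) with hS
  have hSne : S.Nonempty := ⟨m, by simp [hS, hm] ⟩
  obtain ⟨k, hk, hkmax⟩ := Finset.exists_max_image S id hSne
  have hkS : k ∈ p.support ∧ w (p.coeff k) = w (p.coeff m) := by simpa [hS] using hk
  have hak : p.coeff k ≠ 0 := Polynomial.mem_support_iff.mp hkS.1
  have hle : ∀ i, w (p.coeff i) ≤ w (p.coeff k) := by
    intro i
    by_cases hi : i ∈ p.support
    · rw [hkS.2]; exact hmax i hi
    · rw [Polynomial.notMem_support_iff.mp hi]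
      simp [hw]
  have hwk : w (p.coeff k) ≠ 0 := by simpa [hw] using hak
  have hlt : ∀ i, k < i → w (p.coeff i) < w (p.coeff k) := by
    intro i hi
    refine lt_of_le_of_ne (hle i) fun he => ?_
    have hisupp : i ∈ p.support := by
      by_contra hn
      rw [Polynomial.notMem_support_iff.mp hn] at he
      apply hwk
      rw [← he]
      simp [hw]
    have : i ∈ S := by simp only [hS, Finset.mem_filter]; exact ⟨hisupp, he.trans hkS.2⟩
    have := hkmax i this
    simp at this
    omega
  -- the coefficients b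
  set b : ℕ → K := fun i => algebraMap L K (p.coeff i / p.coeff k) with hb
  have hbk : b k = 1 := by simp only [hb]; rw [div_self hak, map_one]
  have hbw : ∀ i, W.valuation (b i) * w (p.coeff k) = w (p.coeff i) := by
    intro i
    simp only [hw, hb]
    rw [← map_mul, ← map_mul, div_mul_cancel₀ _ hak]
  have hpos : 0 < w (p.coeff k) := zero_lt_iff.mpr hwk
  have hb1 : ∀ i, W.valuation (b i) ≤ 1 := by
    intro i
    have h1 := hbw i
    have h2 := hle i
    by_contra hcon
    push Not at hcon
    have : w (p.coeff k) < W.valuation (b i) * w (p.coeff k) := by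
      calc w (p.coeff k) = 1 * w (p.coeff k) := (one_mul _).symm
        _ < W.valuation (b i) * w (p.coeff k) := by
          exact mul_lt_mul_of_pos_right hcon hpos
    rw [h1] at this
    exact absurd h2 (not_le.mpr this)
  have hb2 : ∀ i, k < i → W.valuation (b i) < 1 := by
    intro i hi
    refine lt_of_le_of_ne (hb1 i) fun he => ?_
    have h1 := hbw i
    rw [he, one_mul] at h1
    exact absurd (hlt i hi) (by rw [← h1]; exact lt_irrefl _)
  have hbV : ∀ i, p.coeff i / p.coeff k ∈ W.comap (algebraMap L K) := by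
    intro i
    change algebraMap L K (p.coeff i / p.coeff k) ∈ W
    exact (W.valuation_le_one_iff _).mp (hb1 i)
  -- the relation
  have hrel : ∑ i ∈ Finset.range (p.natDegree + 1), b i * x ^ i = 0 := by
    have h1 : ∑ i ∈ Finset.range (p.natDegree + 1), algebraMap L K (p.coeff i) * x ^ i = 0 := by
      rw [← hpx, Polynomial.aeval_eq_sum_range]
      simp [Algebra.smul_def]
    have h2 : ∀ i, b i * x ^ i = (algebraMap L K (p.coeff k))⁻¹ *
        (algebraMap L K (p.coeff i) * x ^ i) := by
      intro i
      simp only [hb, map_div₀]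
      ring
    rw [Finset.sum_congr rfl fun i _ => h2 i, ← Finset.mul_sum, h1, mul_zero]
  have hkn : k ≤ p.natDegree := Polynomial.le_natDegree_of_mem_supp k hkS.1
  set n := p.natDegree with hn
  -- v
  set v : K := ∑ i ∈ Finset.Ico k (n + 1), b i * x ^ (i - k) with hv
  set u : K := ∑ i ∈ Finset.range k, b i * x⁻¹ ^ (k - 1 - i) with hu
  have hxw : W.valuation x ≤ 1 := (W.valuation_le_one_iff x).mpr hx
  have hvval : W.valuation v = 1 := by
    have h1 : v = 1 + ∑ i ∈ Finset.Ico (k + 1) (n + 1), b i * x ^ (i - k) := by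
      rw [hv, Finset.sum_eq_sum_Ico_succ_bot (by omega)]
      simp [hbk]
    have h2 : W.valuation (∑ i ∈ Finset.Ico (k + 1) (n + 1), b i * x ^ (i - k)) < 1 := by
      apply Valuation.map_sum_lt _ one_ne_zero
      intro i hi
      rw [Finset.mem_Ico] at hi
      rw [map_mul, map_pow]
      exact mul_lt_one_of_lt_of_le (hb2 i (by omega)) (pow_le_one₀ zero_le hxw)
    rw [h1]
    exact Valuation.map_one_add_of_lt _ h2
  have hvu : 1 ≤ k ∧ v * x = - u := by
    have hsplit : ∑ i ∈ Finset.range (n + 1), b i * x ^ i =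
        ∑ i ∈ Finset.range k, b i * x ^ i + ∑ i ∈ Finset.Ico k (n + 1), b i * x ^ i := by
      rw [Finset.range_eq_Ico, Finset.range_eq_Ico]
      exact (Finset.sum_Ico_consecutive _ (Nat.zero_le _) (by omega)).symm
    have h1 : ∑ i ∈ Finset.Ico k (n + 1), b i * x ^ i = v * x ^ k := by
      rw [hv, Finset.sum_mul]
      refine Finset.sum_congr rfl fun i hi => ?_
      rw [Finset.mem_Ico] at hi
      rw [mul_assoc, ← pow_add]
      congr 2
      omega
    rw [hrel, h1] at hsplit
    have hk1 : 1 ≤ k := by
      by_contra hk0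
      have hk0' : k = 0 := by omega
      rw [hk0'] at hsplit
      simp at hsplit
      rw [← hsplit] at hvval
      simp at hvval
    refine ⟨hk1, ?_⟩
    have h2 : ∑ i ∈ Finset.range k, b i * x ^ i = u * x ^ (k - 1) := by
      rw [hu, Finset.sum_mul]
      refine Finset.sum_congr rfl fun i hi => ?_
      rw [Finset.mem_range] at hi
      rw [mul_assoc]
      congr 1
      have h3 : x ^ (k - 1) = x ^ (k - 1 - i) * x ^ i := by
        rw [← pow_add]; congr 1; omega
      rw [h3, ← mul_assoc, ← mul_pow, inv_mul_cancel₀ hx0, one_pow, one_mul]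
    rw [h2] at hsplit
    have h4 : (v * x + u) * x ^ (k - 1) = 0 := by
      have h5 : x ^ k = x * x ^ (k - 1) := by
        rw [← pow_succ']; congr 1; omega
      rw [h5] at hsplit
      linear_combination -hsplit
    have h6 := (mul_eq_zero.mp h4).resolve_right (pow_ne_zero _ hx0)
    exact eq_neg_of_add_eq_zero_left h6
  obtain ⟨hk1, hvx⟩ := hvu
  have key : ∀ W' : ValuationSubring K,
      (∀ a ∈ W.comap (algebraMap L K), algebraMap L K a ∈ W') → v ∈ W' ∧ v * x ∈ W' := by
    intro W' hW'
    have hbW' : ∀ i, b i ∈ W' := fun i => hW' _ (hbV i)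
    rcases W'.mem_or_inv_mem x with h | h
    · have hvW : v ∈ W' := by
        rw [hv]
        exact sum_mem fun i _ => mul_mem (hbW' i) (pow_mem h _)
      exact ⟨hvW, mul_mem hvW h⟩
    · have huW : u ∈ W' := by
        rw [hu]
        exact sum_mem fun i _ => mul_mem (hbW' i) (pow_mem h _)
      have h1 : v * x ∈ W' := by
        rw [hvx]; exact neg_mem huW
      refine ⟨?_, h1⟩
      have h2 : v = (v * x) * x⁻¹ := by
        rw [mul_assoc, mul_inv_cancel₀ hx0, mul_one]
      rw [h2]
      exact mul_mem h1 h
  exact ⟨v, integral_test _ _ fun W' h => (key W' h).1, hvval,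
    integral_test _ _ fun W' h => (key W' h).2⟩

end UnrCoh.BP
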